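import Mathlib
import Pool.Agent.Q106.HypoUD

/-!
# MP_405fb9_co, Q1: the Wagner graph is domination bicritical and hypo-UD
-/

set_option autoImplicit false

namespace Pool.Agent.Results.MP_405fb9_co.WagnerGraph

open Q106.HypoUD

/-- The domination number. -/
noncomputable def domNum {V : Type} (G : SimpleGraph V) : ℕ :=
  sInf {k | ∃ D : Finset V, IsDom G D ∧ D.card = k}

/-- `G` is domination bicritical: deleting any two vertices lowers the domination number. -/
def IsBicritical {V : Type} (G : SimpleGraph V) : Prop :=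
  ∀ S : Set V, S.ncard = 2 → domNum (G.induce Sᶜ) < domNum G

/-- The Wagner graph (the Möbius ladder on eight vertices). -/
def W : SimpleGraph (Fin 8) where
  Adj a b := b = a + 1 ∨ a = b + 1 ∨ b = a + 4 ∨ a = b + 4
  symm := ⟨by decide⟩
  loopless := ⟨by decide⟩

instance : DecidableRel W.Adj := fun a b => by unfold W; infer_instance

instance (D : Finset (Fin 8)) : Decidable (IsDom W D) := by unfold IsDom; infer_instance

/-- The `γ`-set of `W - v`. -/
def E (v : Fin 8) : Finset (Fin 8) := {v + 3, v + 5}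

theorem three_le : ∀ D : Finset (Fin 8), IsDom W D → 3 ≤ D.card := by decide +kernel

theorem check : ∀ v : Fin 8, v ∉ E v ∧ (∀ w, w ≠ v → w ∈ E v ∨ ∃ u ∈ E v, W.Adj w u) ∧
    ∀ D : Finset (Fin 8), v ∉ D → (∀ w, w ≠ v → w ∈ D ∨ ∃ u ∈ D, W.Adj w u) →
      D.card ≤ (E v).card → D = E v := by decide +kernel

theorem pairs : ∀ u v : Fin 8, u ≠ v → ∃ a b : Fin 8, a ≠ u ∧ a ≠ v ∧ b ≠ u ∧ b ≠ v ∧
    ∀ w, w ≠ u → w ≠ v → w = a ∨ w = b ∨ W.Adj w a ∨ W.Adj w b := by decide +kernel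

theorem domNum_W : domNum W = 3 := by
  have h3 : ∃ D : Finset (Fin 8), IsDom W D ∧ D.card = 3 := ⟨{0, 3, 5}, by decide +kernel⟩
  unfold domNum
  apply le_antisymm
  · exact Nat.sInf_le h3
  · obtain ⟨D, hD, hc⟩ := Nat.sInf_mem (s := {k | ∃ D : Finset (Fin 8), IsDom W D ∧ D.card = k})
      ⟨3, h3⟩
    rw [← hc]
    exact three_le D hD

/-- The Wagner graph (connected, cubic, with eight vertices) is domination bicritical and
hypo-UD. -/
theorem result : Fintype.card (Fin 8) ≥ 3 ∧ IsBicritical W ∧ IsHypoUD W := by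
  refine ⟨by decide, ?_, ⟨{0, 3, 5}, {1, 3, 5}, by decide, ?_, ?_⟩, fun v => ?_⟩
  · intro S hS
    obtain ⟨u, v, huv, rfl⟩ := Set.ncard_eq_two.1 hS
    obtain ⟨a, b, h1, h2, h3, h4, h5⟩ := pairs u v huv
    rw [domNum_W]
    have ha : a ∈ ({u, v} : Set (Fin 8))ᶜ := by simp [h1, h2]
    have hb : b ∈ ({u, v} : Set (Fin 8))ᶜ := by simp [h3, h4]
    have hdom : IsDom (W.induce ({u, v} : Set (Fin 8))ᶜ) {⟨a, ha⟩, ⟨b, hb⟩} := by
      rintro ⟨w, hw⟩
      have hw' : w ≠ u ∧ w ≠ v := by simpa [not_or] using hw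
      rcases h5 w hw'.1 hw'.2 with h | h | h | h
      · left; simp [h]
      · left; simp [h]
      · right; exact ⟨⟨a, ha⟩, by simp, h⟩
      · right; exact ⟨⟨b, hb⟩, by simp, h⟩
    have hle : domNum (W.induce ({u, v} : Set (Fin 8))ᶜ) ≤ 2 :=
      le_trans (Nat.sInf_le ⟨_, hdom, rfl⟩) Finset.card_le_two
    omega
  · exact ⟨by decide +kernel, fun D hD => three_le D hD⟩
  · exact ⟨by decide +kernel, fun D hD => three_le D hD⟩
  · obtain ⟨h1, h2, h3⟩ := check v
    exact unique_gammaSet W v (E v) h1 h2 h3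

end Pool.Agent.Results.MP_405fb9_co.WagnerGraph
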